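import Pool.Agent.Helper30.Full.GoalsM

/-!
Packets BA and WF of MP_ac806c_lc.
-/

set_option autoImplicit false
set_option linter.unusedSectionVars false

namespace Pool.Agent.Helper47.Full

open Pool.Agent.Helper30.Full

universe u

theorem baire : StmtBaire.{u} := by
  intro Y _ _ _ _ _ A hA hcl hun
  have h1 : ⋃ n, (A n : Set Y) = Set.univ := by
    rw [Set.eq_univ_iff_forall]
    intro y
    obtain ⟨n, hn⟩ := hun y
    exact Set.mem_iUnion.2 ⟨n, hn⟩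
  obtain ⟨n, hn⟩ := nonempty_interior_of_iUnion_of_closed hcl h1
  obtain ⟨g, hg⟩ := hn
  have ho : IsOpen (A n : Set Y) :=
    AddSubgroup.isOpen_of_mem_nhds (A n) (mem_interior_iff_mem_nhds.1 hg)
  have ho' : ∀ m : ℕ, IsOpen (A (n + m) : Set Y) := fun m =>
    AddSubgroup.isOpen_mono (hA (Nat.le_add_right n m)) ho
  obtain ⟨m, hm⟩ := isCompact_univ.elim_directed_cover (fun m : ℕ => (A (n + m) : Set Y)) ho'
    (by
      intro y _
      obtain ⟨k, hk⟩ := hun y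
      exact Set.mem_iUnion.2 ⟨k, hA (Nat.le_add_left k n) hk⟩)
    (by
      intro i j
      refine ⟨max i j, ?_, ?_⟩
      · exact hA (Nat.add_le_add_left (le_max_left i j) n)
      · exact hA (Nat.add_le_add_left (le_max_right i j) n))
  exact ⟨n + m, fun y => hm (Set.mem_univ y)⟩

section

variable {p : ℕ} [Fact p.Prime] {d : ℕ} {M : Type u} [AddCommGroup M] [TopologicalSpace M]
  [IsTopologicalAddGroup M] [CompactSpace M] [T2Space M] {b : Act p d M}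

/-- `T_h X1 + p X1 + X2` -/
def YY (c : VC b) (h : Fin d → ℤ_[p]) : AddSubgroup M := imS c.sect (b.T h)

/-- all `a` with `T_a X1 ⊆ T_h X1 + p X1 + X2` -/
def NN (c : VC b) (h : Fin d → ℤ_[p]) : Submodule ℤ_[p] (Fin d → ℤ_[p]) :=
  subm b (c.X1 : Set M) (YY c h) (closed_imS c.sect (cont_T b h))
    (inv_imS c.sect (fun k x => (T_comm_σ_apply b h k x).symm))

lemma mem_YY {c : VC b} {h : Fin d → ℤ_[p]} {y : M} :
    y ∈ YY c h ↔ ∃ x ∈ c.X1, y - b.T h x ∈ c.sect.X2 := mem_imS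

lemma mem_NN {c : VC b} {h a : Fin d → ℤ_[p]} : a ∈ NN c h ↔ ∀ z ∈ c.X1, b.T a z ∈ YY c h :=
  Iff.rfl

lemma self_mem_NN (c : VC b) (h : Fin d → ℤ_[p]) : h ∈ NN c h := by
  rw [mem_NN]
  intro z hz
  rw [mem_YY]
  exact ⟨z, hz, by rw [sub_self]; exact c.sect.X2.zero_mem⟩

lemma pA_iter (t : ℕ) (h : Fin d → ℤ_[p]) : (carM b).pA^[t] h = p ^ t • h := by
  induction t with
  | zero => simp
  | succ t ih =>
    rw [Function.iterate_succ_apply', ih]
    show p • (p ^ t • h) = p ^ (t + 1) • h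
    rw [pow_succ', mul_smul]

/-- the meaning of `cBf` -/
lemma bf_spec {c : VC b} {t : ℕ} {h k : Fin d → ℤ_[p]} (hb : cBf c.cf t h k) :
    ∀ x ∈ c.X1, ∃ y ∈ c.X1, b.T k x - b.T (p ^ t • h) y ∈ c.sect.X2 := by
  intro x hx
  obtain ⟨y, hy, z, hz, h2⟩ := hb x hx
  rw [pA_iter] at h2
  exact ⟨y, hy, VC.mem_sect.2 ⟨z, hz, h2⟩⟩

lemma YY_le {c : VC b} {t : ℕ} {h k : Fin d → ℤ_[p]} (hb : cBf c.cf t h k) : YY c k ≤ YY c h := by
  intro y hy
  obtain ⟨x, hx, h1⟩ := mem_YY.1 hy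
  obtain ⟨w, hw, h2⟩ := bf_spec hb x hx
  have h3 : (p ^ t • h) ∈ NN c h := (NN c h).smul_of_tower_mem _ (self_mem_NN c h)
  have h4 : b.T (p ^ t • h) w ∈ YY c h := h3 w hw
  have h5 : c.sect.X2 ≤ YY c h := X2_le_imS c.sect _
  have h6 : y = (y - b.T k x) + (b.T k x - b.T (p ^ t • h) w) + b.T (p ^ t • h) w := by abel
  rw [h6]
  exact (YY c h).add_mem ((YY c h).add_mem (h5 h1) (h5 h2)) h4

theorem wf_aux (c : VC b) (t : ℕ) (ht : 1 ≤ t) (h : Fin d → ℤ_[p])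
    (hyp : ∀ x ∈ c.X1, ∃ y ∈ c.X1, b.T h x - b.T (p ^ t • h) y ∈ c.sect.X2) :
    cSm1 c.cf h := by
  have hp : 2 ≤ p := (Fact.out : p.Prime).two_le
  have hpt : 2 ≤ p ^ t := hp.trans (Nat.le_self_pow (by omega) p)
  have key : YY c h ≤ c.sect.X2 := by
    refine nakayama b h (YY c h) c.sect.X2 c.sect.c2 (fun z hz => T_in_X2 c.sect h hz) ?_
    intro y hy
    obtain ⟨x, hx, h1⟩ := mem_YY.1 hy
    obtain ⟨w, hw, h2⟩ := hyp x hx
    obtain ⟨Q, hQ⟩ := T_ppow b t h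
    have hinv : ∀ v ∈ c.X1, b.T h v ∈ c.X1 := fun v hv => T_in_X1 c h hv
    have hTmem : ∀ v ∈ c.X1, b.T h v ∈ YY c h := fun v hv => self_mem_NN c h v hv
    refine ⟨(y - b.T h x) + (b.T h x - b.T (p ^ t • h) w), c.sect.X2.add_mem h1 h2,
      b.T h ((b.T h ^ (p ^ t - 2)) w), hTmem _ (Tpow_mem b c.X1 h hinv _ w hw),
      b.T h ((Polynomial.aeval (b.T h) Q) w), hTmem _ (aeval_mem b c.X1 h hinv Q w hw), ?_⟩
    have e1 : b.T (p ^ t • h) w = (b.T h ^ p ^ t) w + p • b.T h ((Polynomial.aeval (b.T h) Q) w) := by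
      rw [hQ]; rfl
    have e2 : (b.T h ^ p ^ t) w = b.T h (b.T h ((b.T h ^ (p ^ t - 2)) w)) := by
      conv_lhs => rw [show p ^ t = (p ^ t - 2) + 1 + 1 by omega, pow_succ', pow_succ']
      rfl
    rw [e2] at e1
    have e3 : y = (y - b.T h x) + (b.T h x - b.T (p ^ t • h) w) + b.T (p ^ t • h) w := by abel
    conv_lhs => rw [e3]
    nth_rewrite 2 [e1]
    abel
  intro x hx
  have h3 : b.T h x ∈ c.sect.X2 := key (self_mem_NN c h x hx)
  exact VC.mem_sect.1 h3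

end

theorem wf : StmtWF.{u} := by
  intro p _ d M _ _ _ _ _ b c t ht
  rintro ⟨h, hh⟩
  have hmono : Monotone (fun i => NN c (h i)) := by
    refine monotone_nat_of_le_succ (fun i => ?_)
    intro a ha
    rw [mem_NN] at ha ⊢
    exact fun z hz => YY_le (hh i).2 (ha z hz)
  obtain ⟨n, hn⟩ := monotone_stabilizes_iff_noetherian.2
    (inferInstance : IsNoetherian ℤ_[p] (Fin d → ℤ_[p])) ⟨fun i => NN c (h i), hmono⟩
  have h1 : NN c (h n) = NN c (h (n + 1)) := hn (n + 1) (Nat.le_succ n)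
  have h2 : h (n + 1) ∈ NN c (h n) := by rw [h1]; exact self_mem_NN c _
  apply (hh (n + 1)).1
  refine wf_aux c t ht (h (n + 1)) ?_
  intro x hx
  obtain ⟨y, hy, h3⟩ := mem_YY.1 (h2 x hx)
  obtain ⟨w, hw, h4⟩ := bf_spec (hh n).2 y hy
  refine ⟨w, hw, ?_⟩
  have h5 : b.T (h (n + 1)) x - b.T (p ^ t • h (n + 1)) w =
      (b.T (h (n + 1)) x - b.T (h n) y) + (b.T (h n) y - b.T (p ^ t • h (n + 1)) w) := by abel
  rw [h5]
  exact c.sect.X2.add_mem h3 h4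

end Pool.Agent.Helper47.Full
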